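import Pool.Agent.EGFour.FIN

set_option autoImplicit false

namespace Pool.Agent.Results.MP_1c0a46_co.SuperLog

/-- `c` is a `(p,q)`-colouring of the edges of the complete graph on `Fin n` with colours `Fin k`:
for every set `S` of `p` vertices, the edges inside `S` carry at least `q` distinct colours.
(Edges are unordered pairs of distinct vertices; the values of `c` at pairs `s(x, x)` are
never used.) -/
def IsPQColouring (p q n k : ℕ) (c : Sym2 (Fin n) → Fin k) : Prop :=
  ∀ S : Finset (Fin n), S.card = p →
    q ≤ (((S ×ˢ S).filter (fun e : Fin n × Fin n => e.1 ≠ e.2)).image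
      (fun e : Fin n × Fin n => c s(e.1, e.2))).card

/-- the generalised Ramsey number `f(n,p,q)`: the least number `k` of colours for which the
complete graph on `n` vertices has a `(p,q)`-colouring -/
noncomputable def genRamsey (n p q : ℕ) : ℕ :=
  sInf {k : ℕ | ∃ c : Sym2 (Fin n) → Fin k, IsPQColouring p q n k c}

/-- some number of colours suffices: give all the edges different colours -/
theorem nonempty (n : ℕ) :
    {k : ℕ | ∃ c : Sym2 (Fin n) → Fin k, IsPQColouring 4 3 n k c}.Nonempty := by
  classical
  refine ⟨Fintype.card (Sym2 (Fin n)), Fintype.equivFin _, fun S hS => ?_⟩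
  obtain ⟨x, y, z, w, hxy, hxz, hxw, hyz, hyw, hzw, rfl⟩ := Finset.card_eq_four.1 hS
  set φ : Sym2 (Fin n) ≃ Fin (Fintype.card (Sym2 (Fin n))) := Fintype.equivFin _ with hφ
  have hsub : ({φ s(x, y), φ s(x, z), φ s(x, w)} : Finset _) ⊆
      (((({x, y, z, w} : Finset (Fin n)) ×ˢ ({x, y, z, w} : Finset (Fin n))).filter
        (fun e : Fin n × Fin n => e.1 ≠ e.2)).image
      (fun e : Fin n × Fin n => φ s(e.1, e.2))) := by
    intro u hu
    simp only [Finset.mem_insert, Finset.mem_singleton] at hu
    rw [Finset.mem_image]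
    rcases hu with rfl | rfl | rfl
    · exact ⟨(x, y), by simp [hxy], rfl⟩
    · exact ⟨(x, z), by simp [hxz], rfl⟩
    · exact ⟨(x, w), by simp [hxw], rfl⟩
  have hcard : ({φ s(x, y), φ s(x, z), φ s(x, w)} : Finset _).card = 3 := by
    rw [Finset.card_eq_three]
    refine ⟨_, _, _, ?_, ?_, ?_, rfl⟩
    · intro h
      have := φ.injective h
      simp only [Sym2.eq_iff] at this
      rcases this with ⟨_, h⟩ | ⟨h, _⟩
      · exact hyz h
      · exact hxz h
    · intro h
      have := φ.injective h
      simp only [Sym2.eq_iff] at this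
      rcases this with ⟨_, h⟩ | ⟨h, _⟩
      · exact hyw h
      · exact hxw h
    · intro h
      have := φ.injective h
      simp only [Sym2.eq_iff] at this
      rcases this with ⟨_, h⟩ | ⟨h, _⟩
      · exact hzw h
      · exact hxw h
  rw [← hcard]
  exact Finset.card_le_card hsub

/-- **`f(n,4,3) = ω(log n)`**: the ratio `f(n,4,3) / log n` tends to infinity. -/
theorem result :
    Filter.Tendsto (fun n : ℕ => (genRamsey n 4 3 : ℝ) / Real.log (n : ℝ))
      Filter.atTop Filter.atTop := by
  rw [Filter.tendsto_atTop]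
  intro C
  obtain ⟨N, hN⟩ := EG.final C
  rw [Filter.eventually_atTop]
  refine ⟨max N 2, fun n hn => ?_⟩
  have hn2 : 2 ≤ n := le_trans (le_max_right _ _) hn
  have hlog : 0 < Real.log (n : ℝ) := Real.log_pos (by exact_mod_cast (by omega : 1 < n))
  obtain ⟨c, hc⟩ := Nat.sInf_mem (nonempty n)
  rw [le_div_iff₀ hlog]
  exact hN n (le_trans (le_max_left _ _) hn) _ c hc

end Pool.Agent.Results.MP_1c0a46_co.SuperLog
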